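import Mathlib
import Pool.Agent.H790R3.RB.TSP
import Pool.Agent.H790R3.RB.TMOB
import Pool.Agent.H790R3.RB.TWR
import Pool.Agent.H790R3.RB.TALL
import Pool.Agent.H790R3.RB.TPQ

/-! Project RD (helper757), task RE-NM: linear changes of coordinates (helper364). -/

set_option autoImplicit false

open Topology Filter Metric Set MeasureTheory
open Pool.Agent.H790R3.RB
open scoped OnePoint

namespace Pool.Agent.W364.NM

/-- the linear map with matrix `m` -/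
def ap (m : (ℂ × ℂ) × (ℂ × ℂ)) (p : ℂ × ℂ) : ℂ × ℂ :=
  (m.1.1 * p.1 + m.1.2 * p.2, m.2.1 * p.1 + m.2.2 * p.2)

/-- the adjugate -/
def ad (m : (ℂ × ℂ) × (ℂ × ℂ)) : (ℂ × ℂ) × (ℂ × ℂ) := ((m.2.2, -m.1.2), (-m.2.1, m.1.1))

/-- the determinant -/
def dt (m : (ℂ × ℂ) × (ℂ × ℂ)) : ℂ := m.1.1 * m.2.2 - m.1.2 * m.2.1

theorem ad_ad (m : (ℂ × ℂ) × (ℂ × ℂ)) : ad (ad m) = m := by
  simp [ad]

theorem ap_smul (m : (ℂ × ℂ) × (ℂ × ℂ)) (a : ℂ) (p : ℂ × ℂ) : ap m (a • p) = a • ap m p := by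
  apply Prod.ext
  · simp only [ap, Prod.smul_fst, Prod.smul_snd, smul_eq_mul]; ring
  · simp only [ap, Prod.smul_fst, Prod.smul_snd, smul_eq_mul]; ring

theorem ap_ad (m : (ℂ × ℂ) × (ℂ × ℂ)) (p : ℂ × ℂ) : ap (ad m) (ap m p) = dt m • p := by
  apply Prod.ext
  · simp only [ap, ad, dt, Prod.smul_fst, smul_eq_mul]; ring
  · simp only [ap, ad, dt, Prod.smul_snd, smul_eq_mul]; ring

theorem ad_ap (m : (ℂ × ℂ) × (ℂ × ℂ)) (p : ℂ × ℂ) : ap m (ap (ad m) p) = dt m • p := by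
  apply Prod.ext
  · simp only [ap, ad, dt, Prod.smul_fst, smul_eq_mul]; ring
  · simp only [ap, ad, dt, Prod.smul_snd, smul_eq_mul]; ring

theorem ap_zero' (m : (ℂ × ℂ) × (ℂ × ℂ)) : ap m 0 = 0 := by
  simp [ap]

theorem ap_eq_zero {m : (ℂ × ℂ) × (ℂ × ℂ)} (h : dt m ≠ 0) {p : ℂ × ℂ} (hp : ap m p = 0) :
    p = 0 := by
  have h1 := ap_ad m p
  rw [hp, ap_zero'] at h1
  exact (smul_eq_zero.1 h1.symm).resolve_left h

theorem ap_ne {m : (ℂ × ℂ) × (ℂ × ℂ)} (h : dt m ≠ 0) {p : ℂ × ℂ} (hp : p ≠ 0) : ap m p ≠ 0 :=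
  fun h1 => hp (ap_eq_zero h h1)

theorem cr_ap (m : (ℂ × ℂ) × (ℂ × ℂ)) (p q : ℂ × ℂ) : cr (ap m p) (ap m q) = dt m * cr p q := by
  simp only [cr, ap, dt]; ring

theorem hF_csmul {d : ℕ} (c : ℂ) (x : CV d) (p : ℂ × ℂ) : hF (c • x) p = c • hF x p := by
  apply Prod.ext
  · simp only [hF, Pi.smul_apply, smul_eq_mul, Prod.smul_fst, Finset.mul_sum, mul_assoc]
  · simp only [hF, Pi.smul_apply, smul_eq_mul, Prod.smul_snd, Finset.mul_sum, mul_assoc]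

theorem ND_csmul {d : ℕ} {c : ℂ} (hc : c ≠ 0) {x : CV d} (hx : ND x) : ND (c • x) := by
  intro p hp
  rw [hF_csmul] at hp
  exact hx p ((smul_eq_zero.1 hp).resolve_left hc)

theorem pr_csmul {c : ℂ} (hc : c ≠ 0) (p : ℂ × ℂ) : pr (c • p) = pr p := by
  unfold pr
  simp only [Prod.smul_fst, Prod.smul_snd, smul_eq_mul]
  by_cases h : p.2 = 0
  · rw [if_pos (by rw [h, mul_zero]), if_pos h]
  · rw [if_neg (mul_ne_zero hc h), if_neg h, mul_div_mul_left _ _ hc]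

theorem vne (z : ℂ) : ((z, 1) : ℂ × ℂ) ≠ 0 := by
  intro h
  have := congrArg Prod.snd h
  simp at this

theorem sp_pr {d : ℕ} (hd : 1 ≤ d) {x : CV d} (hx : ND x) {p : ℂ × ℂ} (hp : p ≠ 0) :
    sp x (pr p) = pr (hF x p) := by
  have h := (SP d x hd hx).2.1 p hp 1
  rwa [Function.iterate_one, Function.iterate_one] at h

theorem exists_pr (z : OnePoint ℂ) : ∃ p : ℂ × ℂ, p ≠ 0 ∧ pr p = z := by
  induction z using OnePoint.rec with
  | infty => exact ⟨(1, 0), by simp, by simp [pr]⟩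
  | coe z => exact ⟨(z, 1), vne z, by simp [pr]⟩

/-- conjugate maps -/
theorem semi {d : ℕ} (hd : 1 ≤ d) {x y : CV d} (hx : ND x) (hy : ND y)
    {m : (ℂ × ℂ) × (ℂ × ℂ)} (hm : dt m ≠ 0) {c : ℂ} (hc : c ≠ 0)
    (h : ∀ p, hF y (ap m p) = c • ap m (hF x p)) (H : OnePoint ℂ → OnePoint ℂ)
    (hH : ∀ p : ℂ × ℂ, p ≠ 0 → H (pr p) = pr (ap m p)) (z : OnePoint ℂ) :
    H (sp x z) = sp y (H z) := by
  obtain ⟨p, hp, rfl⟩ := exists_pr z
  have h1 : hF x p ≠ 0 := fun h => hp (hx p h)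
  rw [sp_pr hd hx hp, hH _ h1, hH _ hp, sp_pr hd hy (ap_ne hm hp), h, pr_csmul hc]

theorem ap_hasDerivAt (m : (ℂ × ℂ) × (ℂ × ℂ)) {f : ℂ → ℂ × ℂ} {f' : ℂ × ℂ} {t : ℂ}
    (h : HasDerivAt f f' t) : HasDerivAt (fun s => ap m (f s)) (ap m f') t := by
  have h1 : HasDerivAt (fun s => (f s).1) f'.1 t := h.fst
  have h2 : HasDerivAt (fun s => (f s).2) f'.2 t := h.snd
  exact ((h1.const_mul _).add (h2.const_mul _)).prodMk ((h1.const_mul _).add (h2.const_mul _))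

theorem hF_diff {d : ℕ} (x : CV d) : Differentiable ℂ (hF x) := by
  have h := hF_iter_differentiable d 1
  exact h.comp ((differentiable_const x).prodMk differentiable_id)

theorem hF_line {d : ℕ} (x : CV d) (p v : ℂ × ℂ) :
    HasDerivAt (fun t : ℂ => hF x (p + t • v)) (fderiv ℂ (hF x) p v) 0 := by
  have e1 : HasDerivAt (fun t : ℂ => p + t • v) v 0 := by
    have := ((hasDerivAt_id (0 : ℂ)).smul_const v).const_add p
    simpa using this
  have h1 : HasFDerivAt (hF x) (fderiv ℂ (hF x) p) (p + (0 : ℂ) • v) := by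
    rw [zero_smul, add_zero]
    exact (hF_diff x p).hasFDerivAt
  exact h1.comp_hasDerivAt (0 : ℂ) e1

theorem fderiv_conj {d : ℕ} {x y : CV d} {m : (ℂ × ℂ) × (ℂ × ℂ)} {c : ℂ}
    (h : ∀ p, hF y (ap m p) = c • ap m (hF x p)) (p v : ℂ × ℂ) :
    fderiv ℂ (hF y) (ap m p) (ap m v) = c • ap m (fderiv ℂ (hF x) p v) := by
  have h1 := hF_line y (ap m p) (ap m v)
  have h2 := (ap_hasDerivAt m (hF_line x p v)).const_smul c
  have e : (fun t : ℂ => hF y (ap m p + t • ap m v)) = fun t : ℂ => c • ap m (hF x (p + t • v)) := by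
    funext t
    rw [← h]
    congr 1
    apply Prod.ext
    · simp only [ap, Prod.fst_add, Prod.snd_add, Prod.smul_fst, Prod.smul_snd, smul_eq_mul]; ring
    · simp only [ap, Prod.fst_add, Prod.snd_add, Prod.smul_fst, Prod.smul_snd, smul_eq_mul]; ring
  rw [e] at h1
  exact h1.unique h2

theorem wr_conj {d : ℕ} (hd : 2 ≤ d) {x y : CV d} {m : (ℂ × ℂ) × (ℂ × ℂ)} (hm : dt m ≠ 0) {c : ℂ}
    (h : ∀ p, hF y (ap m p) = c • ap m (hF x p)) (p : ℂ × ℂ) :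
    wr y (ap m p) = c ^ 2 * wr x p := by
  have h1 := (WR d y hd).2.2 (ap m p) (ap m (1, 0)) (ap m (0, 1))
  have h2 := (WR d x hd).2.2 p (1, 0) (0, 1)
  rw [fderiv_conj h, fderiv_conj h, cr_smul_left, cr_smul_right, cr_ap, cr_ap, h2] at h1
  have h3 : cr ((1, 0) : ℂ × ℂ) (0, 1) = 1 := by simp [cr]
  rw [h3] at h1
  have h4 : dt m * (wr y (ap m p) - c ^ 2 * wr x p) = 0 := by linear_combination -h1
  exact sub_eq_zero.1 ((mul_eq_zero.1 h4).resolve_left hm)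

theorem wr_eval {d : ℕ} (hd : 2 ≤ d) (x : CV d) (ζ : ℂ) :
    wr x (ζ, 1) = d * ((Polynomial.derivative (pol x 0)).eval ζ * (pol x 1).eval ζ -
      (pol x 0).eval ζ * (Polynomial.derivative (pol x 1)).eval ζ) := by
  have hE : fderiv ℂ (hF x) (ζ, 1) (ζ, 1) = (d : ℂ) • hF x (ζ, 1) := by
    have e1 : HasDerivAt (fun a : ℂ => a • ((ζ, 1) : ℂ × ℂ)) (ζ, 1) 1 := by
      simpa using (hasDerivAt_id (1 : ℂ)).smul_const ((ζ, 1) : ℂ × ℂ)
    have e2 : HasDerivAt (fun a : ℂ => hF x (a • ((ζ, 1) : ℂ × ℂ)))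
        (fderiv ℂ (hF x) (ζ, 1) (ζ, 1)) 1 := by
      have h1' : HasFDerivAt (hF x) (fderiv ℂ (hF x) (ζ, 1)) ((1 : ℂ) • ((ζ, 1) : ℂ × ℂ)) := by
        rw [one_smul]
        exact (hF_diff x _).hasFDerivAt
      exact h1'.comp_hasDerivAt (1 : ℂ) e1
    have e3 : HasDerivAt (fun a : ℂ => hF x (a • ((ζ, 1) : ℂ × ℂ))) ((d : ℂ) • hF x (ζ, 1)) 1 := by
      have e4 : (fun a : ℂ => hF x (a • ((ζ, 1) : ℂ × ℂ))) = fun a : ℂ => a ^ d • hF x (ζ, 1) := by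
        funext a
        exact hF_smul x a _
      rw [e4]
      simpa using (hasDerivAt_pow d (1 : ℂ)).smul_const (hF x (ζ, 1))
    exact e2.unique e3
  have hD : fderiv ℂ (hF x) (ζ, 1) (1, 0) = ((Polynomial.derivative (pol x 0)).eval ζ,
      (Polynomial.derivative (pol x 1)).eval ζ) := by
    have e1 := hF_line x (ζ, 1) (1, 0)
    have e2 : (fun t : ℂ => hF x ((ζ, 1) + t • ((1, 0) : ℂ × ℂ))) = fun t : ℂ =>
        ((pol x 0).eval (ζ + t), (pol x 1).eval (ζ + t)) := by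
      funext t
      have : ((ζ, 1) : ℂ × ℂ) + t • ((1, 0) : ℂ × ℂ) = (ζ + t, 1) := by
        apply Prod.ext
        · simp
        · simp
      rw [this, PQ.hF_one]
    rw [e2] at e1
    have e3 : ∀ P : Polynomial ℂ, HasDerivAt (fun t : ℂ => P.eval (ζ + t))
        ((Polynomial.derivative P).eval ζ) 0 := by
      intro P
      have h1 : HasDerivAt (fun z => P.eval z) ((Polynomial.derivative P).eval ζ) (ζ + 0) := by
        rw [add_zero]
        exact P.hasDerivAt ζ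
      exact HasDerivAt.comp_const_add ζ 0 h1
    exact e1.unique ((e3 _).prodMk (e3 _))
  have h3 := (WR d x hd).2.2 (ζ, 1) (1, 0) (ζ, 1)
  rw [hE, hD, PQ.hF_one] at h3
  simp only [cr, Prod.smul_fst, Prod.smul_snd, smul_eq_mul] at h3
  linear_combination -h3

end Pool.Agent.W364.NM
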